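import Pool.Agent.R813.FanWedge

/-! # Two smooth fans with exactly six orbits -/

set_option autoImplicit false
set_option linter.unusedVariables false
set_option linter.unusedSectionVars false
set_option linter.dupNamespace false
set_option linter.unusedSimpArgs false

namespace Pool.Agent.R813.FanSix

open Set Topology Filter Pool.Agent.H545R3.Fan Pool.Agent.R813.FanWedge

/-! ### the marks -/

/-- the marks -/
noncomputable def mk (n : ℤ) : ℝ := (2:ℝ) ^ n / (1 + (2:ℝ) ^ n)

lemma two_pos' (n : ℤ) : (0:ℝ) < (2:ℝ) ^ n := zpow_pos (by norm_num) n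

lemma mk_pos (n : ℤ) : 0 < mk n := by
  have := two_pos' n
  unfold mk; positivity

lemma mk_lt_one (n : ℤ) : mk n < 1 := by
  have := two_pos' n
  unfold mk
  rw [div_lt_one (by linarith)]
  linarith

lemma mk_zero : mk 0 = 1 / 2 := by
  unfold mk; norm_num

lemma mk_one : mk 1 = 2 / 3 := by
  unfold mk; norm_num

lemma mk_le {m n : ℤ} (h : m ≤ n) : mk m ≤ mk n := by
  have h1 := two_pos' m
  have h2 := two_pos' n
  have h3 : (2:ℝ) ^ m ≤ (2:ℝ) ^ n := zpow_le_zpow_right₀ (by norm_num) h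
  unfold mk
  rw [div_le_div_iff₀ (by linarith) (by linarith)]
  nlinarith

/-- the Moebius transformation of the unit interval, extended by the identity -/
noncomputable def mobF (a : ℝ) (s : ℝ) : ℝ := if 0 ≤ s ∧ s ≤ 1 then a * s / (1 + (a - 1) * s) else s

lemma mob_den {a s : ℝ} (ha : 0 < a) (h0 : 0 ≤ s) (h1 : s ≤ 1) : 0 < 1 + (a - 1) * s := by
  rcases h0.eq_or_lt with h | h
  · rw [← h]; simp
  · nlinarith

lemma mobF_mem {a s : ℝ} (ha : 0 < a) (h0 : 0 ≤ s) (h1 : s ≤ 1) : 0 ≤ mobF a s ∧ mobF a s ≤ 1 := by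
  have hd := mob_den ha h0 h1
  unfold mobF
  rw [if_pos ⟨h0, h1⟩]
  refine ⟨by positivity, ?_⟩
  rw [div_le_one hd]
  nlinarith

lemma mobF_of {a s : ℝ} (h : 0 ≤ s ∧ s ≤ 1) : mobF a s = a * s / (1 + (a - 1) * s) := by
  unfold mobF; rw [if_pos h]

lemma mobF_inv {a : ℝ} (ha : 0 < a) (s : ℝ) : mobF a⁻¹ (mobF a s) = s := by
  by_cases h : 0 ≤ s ∧ s ≤ 1
  · have h1 := mobF_mem ha h.1 h.2
    have hd := mob_den ha h.1 h.2
    have hd' := mob_den (inv_pos.2 ha) h1.1 h1.2
    have h2 : mobF a s = a * s / (1 + (a - 1) * s) := mobF_of h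
    have h3 : mobF a⁻¹ (mobF a s) = a⁻¹ * (mobF a s) / (1 + (a⁻¹ - 1) * (mobF a s)) := mobF_of h1
    rw [h3, div_eq_iff hd'.ne']
    have h4 : mobF a s * (1 + (a - 1) * s) = a * s := by
      rw [h2, div_mul_cancel₀ _ hd.ne']
    have h5 : a⁻¹ * a = 1 := inv_mul_cancel₀ ha.ne'
    have h6 : a⁻¹ * (mobF a s * (1 + (a - 1) * s)) = s := by
      rw [h4, ← mul_assoc, h5, one_mul]
    have h7 : a⁻¹ * (mobF a s * (1 + (a - 1) * s)) = a⁻¹ * mobF a s * (1 - s) + (a⁻¹ * a) * (mobF a s * s) := by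
      ring
    rw [h5] at h7
    linarith
  · have h1 : mobF a s = s := by unfold mobF; rw [if_neg h]
    rw [h1]
    unfold mobF; rw [if_neg h]

lemma mobF_mono {a : ℝ} (ha : 0 < a) {s t : ℝ} (hst : s ≤ t) : mobF a s ≤ mobF a t := by
  by_cases hs : 0 ≤ s ∧ s ≤ 1
  · by_cases ht : 0 ≤ t ∧ t ≤ 1
    · have h1 := mob_den ha hs.1 hs.2
      have h2 := mob_den ha ht.1 ht.2
      unfold mobF
      rw [if_pos hs, if_pos ht, div_le_div_iff₀ h1 h2]
      nlinarith
    · have h1 := mobF_mem ha hs.1 hs.2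
      have h2 : mobF a t = t := by unfold mobF; rw [if_neg ht]
      rw [h2]
      by_contra hcon
      apply ht
      exact ⟨hs.1.trans hst, by linarith⟩
  · have h2 : mobF a s = s := by unfold mobF; rw [if_neg hs]
    rw [h2]
    by_cases ht : 0 ≤ t ∧ t ≤ 1
    · have h1 := mobF_mem ha ht.1 ht.2
      by_contra hcon
      apply hs
      exact ⟨by linarith, by linarith⟩
    · have h2 : mobF a t = t := by unfold mobF; rw [if_neg ht]
      rw [h2]; exact hst

/-- the order isomorphism -/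
noncomputable def mob (a : ℝ) (ha : 0 < a) : ℝ ≃o ℝ where
  toFun := mobF a
  invFun := mobF a⁻¹
  left_inv := mobF_inv ha
  right_inv := fun s => by
    have := mobF_inv (inv_pos.2 ha) s
    rwa [inv_inv] at this
  map_rel_iff' := by
    intro s t
    constructor
    · intro h
      have := mobF_mono (inv_pos.2 ha) h
      have e1 : mobF a⁻¹ (mobF a s) = s := mobF_inv ha s
      have e2 : mobF a⁻¹ (mobF a t) = t := mobF_inv ha t
      have h' : mobF a⁻¹ (mobF a s) ≤ mobF a⁻¹ (mobF a t) := this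
      rwa [e1, e2] at h'
    · exact fun h => mobF_mono ha h

lemma mob_apply {a : ℝ} (ha : 0 < a) {s : ℝ} (h0 : 0 ≤ s) (h1 : s ≤ 1) :
    mob a ha s = a * s / (1 + (a - 1) * s) := by
  show mobF a s = _
  unfold mobF; rw [if_pos ⟨h0, h1⟩]

lemma mob_zero {a : ℝ} (ha : 0 < a) : mob a ha 0 = 0 := by
  rw [mob_apply ha le_rfl zero_le_one]; simp

lemma mob_one {a : ℝ} (ha : 0 < a) : mob a ha 1 = 1 := by
  rw [mob_apply ha zero_le_one le_rfl, div_eq_one_iff_eq (mob_den ha zero_le_one le_rfl).ne']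
  ring

lemma mob_mk (t n : ℤ) : mob ((2:ℝ) ^ t) (two_pos' t) (mk n) = mk (n + t) := by
  rw [mob_apply _ (mk_pos n).le (mk_lt_one n).le]
  have h1 := two_pos' t
  have h2 := two_pos' n
  unfold mk
  rw [zpow_add₀ (by norm_num)]
  have h3 : (0:ℝ) < 1 + (2:ℝ) ^ n := by linarith
  have h4 : (0:ℝ) < 1 + (2:ℝ) ^ n * (2:ℝ) ^ t := by positivity
  have h5 : 1 + ((2:ℝ) ^ t - 1) * ((2:ℝ) ^ n / (1 + (2:ℝ) ^ n)) =
    (1 + (2:ℝ) ^ n * (2:ℝ) ^ t) / (1 + (2:ℝ) ^ n) := by
    field_simp
    ring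
  rw [h5]
  field_simp

/-- an order isomorphism supported in `[a,b]` -/
lemma loc1 {a b u v : ℝ} (h1 : a < u) (h2 : u ≤ v) (h3 : v < b) :
    ∃ G : ℝ ≃o ℝ, (∀ s, s ≤ a → G s = s) ∧ (∀ s, b ≤ s → G s = s) ∧ G u = v := by
  set k₁ := (v - a) / (u - a) with hk₁
  set k₂ := (b - v) / (b - u) with hk₂
  have hu : 0 < u - a := by linarith
  have hb : 0 < b - u := by linarith
  have k1 : 1 ≤ k₁ := by rw [hk₁, one_le_div hu]; linarith
  have k2 : k₂ ≤ 1 := by rw [hk₂, div_le_one hb]; linarith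
  have k2' : 0 < k₂ := div_pos (by linarith) hb
  set f : ℝ → ℝ := fun s => max s (min (a + (s - a) * k₁) (b + (s - b) * k₂)) with hf
  have hmono : StrictMono f := by
    intro s t hst
    simp only [hf]
    have e1 : a + (s - a) * k₁ < a + (t - a) * k₁ := by nlinarith
    have e2 : b + (s - b) * k₂ < b + (t - b) * k₂ := by nlinarith
    exact max_lt_max hst (min_lt_min e1 e2)
  have hlow : ∀ s, s ≤ a → f s = s := by
    intro s hs
    simp only [hf]
    apply max_eq_left
    apply (min_le_left _ _).trans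
    nlinarith
  have hhigh : ∀ s, b ≤ s → f s = s := by
    intro s hs
    simp only [hf]
    apply max_eq_left
    apply (min_le_right _ _).trans
    nlinarith
  have hcont : Continuous f := by
    simp only [hf]
    fun_prop
  have hsurj : Function.Surjective f := by
    apply hcont.surjective
    · apply tendsto_atTop_mono (f := fun s => s) (fun s => le_max_left _ _) tendsto_id
    · apply Tendsto.congr' _ tendsto_id
      filter_upwards [eventually_le_atBot a] with s hs
      exact (hlow s hs).symm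
  refine ⟨hmono.orderIsoOfSurjective f hsurj, fun s hs => hlow s hs, fun s hs => hhigh s hs, ?_⟩
  show f u = v
  simp only [hf]
  have e1 : a + (u - a) * k₁ = v := by
    rw [hk₁, mul_div_cancel₀ _ hu.ne']; ring
  have e2 : b + (u - b) * k₂ = v := by
    have : (u - b) * k₂ = -(b - v) := by
      rw [hk₂]
      have : u - b = -(b - u) := by ring
      rw [this, neg_mul, mul_div_cancel₀ _ hb.ne']
    rw [this]; ring
  rw [e1, e2, min_self]
  exact max_eq_right h2

lemma loc {a b u v : ℝ} (h1 : a < u) (h2 : u < b) (h3 : a < v) (h4 : v < b) :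
    ∃ G : ℝ ≃o ℝ, (∀ s, s ≤ a → G s = s) ∧ (∀ s, b ≤ s → G s = s) ∧ G u = v := by
  rcases le_total u v with h | h
  · exact loc1 h1 h h4
  · obtain ⟨G, g1, g2, g3⟩ := loc1 h3 h h2
    refine ⟨G.symm, ?_, ?_, ?_⟩
    · intro s hs
      rw [OrderIso.symm_apply_eq, g1 s hs]
    · intro s hs
      rw [OrderIso.symm_apply_eq, g2 s hs]
    · rw [OrderIso.symm_apply_eq, g3]

/-! ### the numbering of the side blades -/

/-- numbering -/
noncomputable def enc : ℕ ≃ ℤ × ℕ := (Denumerable.eqv (ℤ × ℕ)).symm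

/-- the level of the `k`-th side blade -/
noncomputable def lv (k : ℕ) : ℤ := (enc k).1

lemma lv_large (n : ℤ) (M : ℕ) : ∃ k, M ≤ k ∧ lv k = n := by
  have hinj : Function.Injective (fun b : ℕ => enc.symm (n, b)) := by
    intro b b' h
    have := enc.symm.injective h
    exact (Prod.ext_iff.1 this).2
  obtain ⟨k, ⟨b, rfl⟩, hk⟩ := (Set.infinite_range_of_injective hinj).exists_gt M
  exact ⟨_, hk.le, by simp [lv]⟩

/-- shifting the numbering -/
noncomputable def tau (t : ℤ) : ℕ ≃ ℕ :=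
  (enc.trans ((Equiv.addRight t).prodCongr (Equiv.refl ℕ))).trans enc.symm

lemma lv_tau (t : ℤ) (k : ℕ) : lv (tau t k) = lv k + t := by
  simp [lv, tau]

lemma lv_swap {x y : ℕ} (h : lv x = lv y) (z : ℕ) : lv (Equiv.swap x y z) = lv z := by
  rw [Equiv.swap_apply_def]
  split_ifs with h1 h2
  · rw [h1, h]
  · rw [h2, h]
  · rfl

/-- the number of the standard side blade -/
noncomputable def k0 : ℕ := enc.symm (0, 0)

lemma lv_k0 : lv k0 = 0 := by simp [lv, k0]

/-- the `k`-th side blade -/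
def sb (k : ℕ) : Cs := fun n => decide (n = k)

lemma sb_iff {k n : ℕ} : sb k n = true ↔ n = k := by simp [sb]

lemma sb_ne (k : ℕ) : sb k ≠ z0 := by
  intro h
  have := congrFun h k
  simp [sb, z0] at this

lemma sb_inj {k l : ℕ} (h : sb k = sb l) : k = l := by
  have := congrFun h k
  have h2 : sb k k = true := sb_iff.2 rfl
  rw [this] at h2
  exact sb_iff.1 h2

lemma sb_comp (σ : ℕ ≃ ℕ) (k : ℕ) : sb (σ k) ∘ σ = sb k := by
  funext n
  simp [sb]

/-- the set -/
def K1 : Set (Cs × ℝ) := {q | 0 ≤ q.2 ∧ q.2 ≤ 1 ∧ (∀ k, q.1 k = true → q.2 ≤ mk (lv k)) ∧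
  ∀ k l, k ≠ l → q.1 k = true → q.1 l = true → q.2 ≤ 0}

lemma mem_z0 {s : ℝ} : (z0, s) ∈ K1 ↔ 0 ≤ s ∧ s ≤ 1 := by
  constructor
  · rintro ⟨h1, h2, _⟩
    exact ⟨h1, h2⟩
  · rintro ⟨h1, h2⟩
    exact ⟨h1, h2, fun k hk => absurd hk (by simp [z0]), fun k l _ hk => absurd hk (by simp [z0])⟩

lemma mem_sb {k : ℕ} {s : ℝ} : (sb k, s) ∈ K1 ↔ 0 ≤ s ∧ s ≤ mk (lv k) := by
  constructor
  · rintro ⟨h1, h2, h3, _⟩
    exact ⟨h1, h3 k (sb_iff.2 rfl)⟩
  · rintro ⟨h1, h2⟩
    refine ⟨h1, h2.trans (mk_lt_one _).le, ?_, ?_⟩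
    · intro l hl
      rw [sb_iff.1 hl]; exact h2
    · intro l l' hne hl hl'
      exact absurd ((sb_iff.1 hl).trans (sb_iff.1 hl').symm) hne

lemma K1_cases {c : Cs} {s : ℝ} (h : (c, s) ∈ K1) (hs : 0 < s) : c = z0 ∨ ∃ k, c = sb k := by
  by_cases h0 : ∃ k, c k = true
  · obtain ⟨k, hk⟩ := h0
    right
    refine ⟨k, ?_⟩
    funext n
    by_cases hn : n = k
    · rw [hn, hk]; exact (sb_iff.2 rfl).symm
    · have h1 : c n ≠ true := by
        intro h2
        have := h.2.2.2 n k hn h2 hk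
        simp only at this
        linarith
      have h2 : sb k n ≠ true := fun h => hn (sb_iff.1 h)
      rw [Bool.eq_false_iff.2 h1, Bool.eq_false_iff.2 h2]
  · left
    push Not at h0
    funext n
    exact Bool.eq_false_iff.2 (h0 n)

lemma goodK1 : Good K1 where
  comp := by
    have h1 : K1 ⊆ (univ : Set Cs) ×ˢ Icc (0:ℝ) 1 := by
      rintro ⟨c, s⟩ ⟨h1, h2, _⟩
      exact ⟨trivial, h1, h2⟩
    refine (isCompact_univ.prod isCompact_Icc).of_isClosed_subset ?_ h1
    have hcl : ∀ k, IsClosed {q : Cs × ℝ | q.1 k = false} := fun k =>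
      isClosed_eq ((continuous_apply k).comp continuous_fst) continuous_const
    have h2 : K1 = {q : Cs × ℝ | 0 ≤ q.2} ∩ {q : Cs × ℝ | q.2 ≤ 1} ∩
        (⋂ k, ({q : Cs × ℝ | q.1 k = false} ∪ {q : Cs × ℝ | q.2 ≤ mk (lv k)})) ∩
        (⋂ k, ⋂ l, ⋂ (_ : k ≠ l), (({q : Cs × ℝ | q.1 k = false} ∪ {q : Cs × ℝ | q.1 l = false}) ∪
          {q : Cs × ℝ | q.2 ≤ 0})) := by
      ext q
      simp only [K1, mem_inter_iff, mem_iInter, mem_union, mem_ofPred_eq]
      constructor
      · rintro ⟨h1, h2, h3, h4⟩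
        refine ⟨⟨⟨h1, h2⟩, fun k => ?_⟩, fun k l hkl => ?_⟩
        · rcases hc : q.1 k with _ | _
          · exact Or.inl rfl
          · exact Or.inr (h3 k hc)
        · rcases hc : q.1 k with _ | _
          · exact Or.inl (Or.inl rfl)
          · rcases hc' : q.1 l with _ | _
            · exact Or.inl (Or.inr rfl)
            · exact Or.inr (h4 k l hkl hc hc')
      · rintro ⟨⟨⟨h1, h2⟩, h3⟩, h4⟩
        refine ⟨h1, h2, fun k hk => ?_, fun k l hkl hk hl => ?_⟩
        · rcases h3 k with h | h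
          · rw [h] at hk; exact Bool.noConfusion hk
          · exact h
        · rcases h4 k l hkl with (h | h) | h
          · rw [h] at hk; exact Bool.noConfusion hk
          · rw [h] at hl; exact Bool.noConfusion hl
          · exact h
    rw [h2]
    apply IsClosed.inter
    · apply IsClosed.inter
      · exact (isClosed_le continuous_const continuous_snd).inter
          (isClosed_le continuous_snd continuous_const)
      · exact isClosed_iInter fun k => (hcl k).union (isClosed_le continuous_snd continuous_const)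
    · exact isClosed_iInter fun k => isClosed_iInter fun l => isClosed_iInter fun _ =>
        ((hcl k).union (hcl l)).union (isClosed_le continuous_snd continuous_const)
  nonneg := fun q hq => hq.1
  down := fun c s s' h h0 hs => ⟨h0, hs.trans h.2.1, fun k hk => hs.trans (h.2.2.1 k hk),
    fun k l hkl hk hl => hs.trans (h.2.2.2 k l hkl hk hl)⟩
  zero := fun c => ⟨le_rfl, zero_le_one, fun k _ => (mk_pos _).le, fun _ _ _ _ _ => le_rfl⟩
  three := by
    refine ⟨z0, sb 0, sb 1, 1, mk (lv 0), mk (lv 1), (sb_ne 0).symm, (sb_ne 1).symm, ?_,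
      one_pos, mk_pos _, mk_pos _, mem_z0.2 ⟨zero_le_one, le_rfl⟩,
      mem_sb.2 ⟨(mk_pos _).le, le_rfl⟩, mem_sb.2 ⟨(mk_pos _).le, le_rfl⟩⟩
    intro h
    have := sb_inj h
    omega

/-! ### homeomorphisms -/

lemma move (σ : ℕ ≃ ℕ) (G : ℝ ≃o ℝ) (G0 : G 0 = 0) (G1 : G 1 = 1)
    (hG : ∀ k, G (mk (lv (σ k))) = mk (lv k)) :
    ∃ h : Fan K1 ≃ₜ Fan K1, ∀ (c : Cs) (s : ℝ) (hm : (c, s) ∈ K1) (hm' : (c ∘ σ, G s) ∈ K1),
      h (pt c s hm) = pt (c ∘ σ) (G s) hm' := by
  set Φ : Cs × ℝ → Cs × ℝ := fun q => (q.1 ∘ σ, G q.2) with hΦ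
  set Ψ : Cs × ℝ → Cs × ℝ := fun q => (q.1 ∘ σ.symm, G.symm q.2) with hΨ
  have hc : ∀ σ : ℕ ≃ ℕ, Continuous (fun c : Cs => c ∘ σ) := fun σ =>
    continuous_pi fun n => continuous_apply (σ n)
  have key : ∀ (σ : ℕ ≃ ℕ) (G : ℝ ≃o ℝ), G 0 = 0 → G 1 = 1 →
      (∀ k, G (mk (lv (σ k))) = mk (lv k)) → ∀ q ∈ K1, (q.1 ∘ σ, G q.2) ∈ K1 := by
    rintro σ G G0 G1 hG ⟨c, s⟩ ⟨h1, h2, h3, h4⟩
    refine ⟨?_, ?_, ?_, ?_⟩
    · show 0 ≤ G s
      rw [← G0]; exact G.monotone h1
    · show G s ≤ 1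
      rw [← G1]; exact G.monotone h2
    · intro k hk
      show G s ≤ mk (lv k)
      rw [← hG]; exact G.monotone (h3 (σ k) hk)
    · intro k l hkl hk hl
      show G s ≤ 0
      rw [← G0]; exact G.monotone (h4 (σ k) (σ l) (fun h => hkl (σ.injective h)) hk hl)
  obtain ⟨h, hh⟩ := descend goodK1 Φ Ψ ((((hc σ).comp continuous_fst).prodMk
      (G.continuous.comp continuous_snd))) ((((hc σ.symm).comp continuous_fst).prodMk
      (G.symm.continuous.comp continuous_snd))) (key σ G G0 G1 hG)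
      (key σ.symm G.symm (by rw [OrderIso.symm_apply_eq, G0]) (by rw [OrderIso.symm_apply_eq, G1])
        (fun k => by
          rw [OrderIso.symm_apply_eq]
          have := hG (σ.symm k)
          rw [Equiv.apply_symm_apply] at this
          exact this.symm))
      (by
        rintro ⟨c, s⟩
        simp only [hΦ, hΨ, OrderIso.symm_apply_apply, Prod.mk.injEq, and_true]
        funext n
        simp)
      (by
        rintro ⟨c, s⟩
        simp only [hΦ, hΨ, OrderIso.apply_symm_apply, Prod.mk.injEq, and_true]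
        funext n
        simp)
      (fun c => G0) (fun c => by
        show G.symm 0 = 0
        rw [OrderIso.symm_apply_eq, G0])
  exact ⟨h, fun c s hm hm' => hh ⟨(c, s), hm⟩⟩

lemma moveBlade (j : ℕ) (G : ℝ ≃o ℝ) (G0 : G 0 = 0) (Gj : G (mk (lv j)) = mk (lv j)) :
    ∃ h : Fan K1 ≃ₜ Fan K1, ∀ (s : ℝ) (hm : (sb j, s) ∈ K1) (hm' : (sb j, G s) ∈ K1),
      h (pt (sb j) s hm) = pt (sb j) (G s) hm' := by
  set Φ : Cs × ℝ → Cs × ℝ := fun q => (q.1, if q.1 j then G q.2 else q.2) with hΦ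
  set Ψ : Cs × ℝ → Cs × ℝ := fun q => (q.1, if q.1 j then G.symm q.2 else q.2) with hΨ
  have hc : ∀ G : ℝ ≃o ℝ, Continuous (fun q : Cs × ℝ => if q.1 j then G q.2 else q.2) := by
    intro G
    have h1 : Continuous (fun p : Bool × ℝ => if p.1 then G p.2 else p.2) := by
      rw [continuous_prod_of_discrete_left]
      intro b
      cases b
      · exact continuous_id
      · exact G.continuous
    have h2 : Continuous (fun q : Cs × ℝ => q.1 j) := (continuous_apply j).comp continuous_fst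
    exact h1.comp (h2.prodMk continuous_snd)
  have key : ∀ (G : ℝ ≃o ℝ), G 0 = 0 → G (mk (lv j)) = mk (lv j) →
      ∀ q ∈ K1, ((q.1, if q.1 j then G q.2 else q.2) : Cs × ℝ) ∈ K1 := by
    rintro G G0 Gj ⟨c, s⟩ hq
    rcases hcj : c j with _ | _
    · simp only [hcj]; exact hq
    · simp only [hcj, if_true]
      obtain ⟨h1, h2, h3, h4⟩ := hq
      simp only at h1 h2 h3 h4
      have h5 : G s ≤ mk (lv j) := by rw [← Gj]; exact G.monotone (h3 j hcj)
      refine ⟨?_, ?_, ?_, ?_⟩
      · show 0 ≤ G s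
        rw [← G0]; exact G.monotone h1
      · exact h5.trans (mk_lt_one _).le
      · intro k hk
        by_cases hkj : k = j
        · rw [hkj]; exact h5
        · show G s ≤ mk (lv k)
          have h6 : s ≤ 0 := h4 k j hkj hk hcj
          calc G s ≤ G 0 := G.monotone h6
            _ = 0 := G0
            _ ≤ _ := (mk_pos _).le
      · intro k l hkl hk hl
        show G s ≤ 0
        rw [← G0]; exact G.monotone (h4 k l hkl hk hl)
  have G0' : G.symm 0 = 0 := by rw [OrderIso.symm_apply_eq, G0]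
  obtain ⟨h, hh⟩ := descend goodK1 Φ Ψ (continuous_fst.prodMk (hc G))
      (continuous_fst.prodMk (hc G.symm)) (key G G0 Gj)
      (key G.symm G0' (by rw [OrderIso.symm_apply_eq, Gj]))
      (by
        rintro ⟨c, s⟩
        simp only [hΦ, hΨ]
        cases c j <;> simp)
      (by
        rintro ⟨c, s⟩
        simp only [hΦ, hΨ]
        cases c j <;> simp)
      (fun c => by
        simp only [hΦ]
        cases c j <;> simp [G0])
      (fun c => by
        simp only [hΨ]
        cases c j <;> simp [G0'])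
  refine ⟨h, fun s hm hm' => ?_⟩
  have h1 := hh ⟨(sb j, s), hm⟩
  have h2 : toFan K1 ⟨(sb j, s), hm⟩ = pt (sb j) s hm := rfl
  rw [← h2, h1]
  apply Subtype.ext
  show pr (Φ (sb j, s)) = pr (sb j, G s)
  congr 1
  have h3 : sb j j = true := sb_iff.2 rfl
  simp only [hΦ, h3, if_true]

/-! ### representatives -/

lemma mm1 : (z0, (1:ℝ)) ∈ K1 := mem_z0.2 ⟨zero_le_one, le_rfl⟩

lemma mm2 : (sb k0, (1/2:ℝ)) ∈ K1 := mem_sb.2 ⟨by norm_num, by rw [lv_k0, mk_zero]⟩

lemma mm3 : (z0, (1/2:ℝ)) ∈ K1 := mem_z0.2 ⟨by norm_num, by norm_num⟩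

lemma mm4 : (z0, (7/12:ℝ)) ∈ K1 := mem_z0.2 ⟨by norm_num, by norm_num⟩

lemma mm5 : (sb k0, (1/4:ℝ)) ∈ K1 := mem_sb.2 ⟨by norm_num, by rw [lv_k0, mk_zero]; norm_num⟩

lemma mmk (k : ℕ) : (sb k, mk (lv k)) ∈ K1 := mem_sb.2 ⟨(mk_pos _).le, le_rfl⟩

/-- the six representatives -/
noncomputable def rep : Fin 6 → Fan K1
  | 0 => top goodK1
  | 1 => pt z0 1 mm1
  | 2 => pt (sb k0) (1/2) mm2
  | 3 => pt z0 (1/2) mm3
  | 4 => pt z0 (7/12) mm4
  | 5 => pt (sb k0) (1/4) mm5

lemma pt_congr {K : Set (Cs × ℝ)} {c c' : Cs} {s s' : ℝ} (h : (c, s) ∈ K) (h' : (c', s') ∈ K)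
    (hc : c = c') (hs : s = s') : pt c s h = pt c' s' h' := by
  subst hc; subst hs; rfl

/-- every point can be moved to a representative -/
theorem to_rep (x : Fan K1) : ∃ i, ∃ h : Fan K1 ≃ₜ Fan K1, h x = rep i := by
  obtain ⟨c, s, hm, hs, rfl⟩ := repr goodK1 x
  rcases hs.eq_or_lt with h0 | h0
  · subst h0
    exact ⟨0, Homeomorph.refl _, pt_zero goodK1 c⟩
  · rcases K1_cases hm h0 with rfl | ⟨k, rfl⟩
    · have hs1 := (mem_z0.1 hm).2
      rcases hs1.eq_or_lt with h1 | h1
      · subst h1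
        exact ⟨1, Homeomorph.refl _, rfl⟩
      · -- the main blade
        have ha : 0 < s / (1 - s) := div_pos h0 (by linarith)
        obtain ⟨n, hn1, hn2⟩ := exists_mem_Ico_zpow ha (show (1:ℝ) < 2 by norm_num)
        have e1 : mk n ≤ s := by
          unfold mk
          have := two_pos' n
          rw [le_div_iff₀ (by linarith)] at hn1
          rw [div_le_iff₀ (by linarith)]
          nlinarith
        have e2 : s < mk (n + 1) := by
          unfold mk
          have := two_pos' (n + 1)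
          rw [div_lt_iff₀ (by linarith)] at hn2
          rw [lt_div_iff₀ (by linarith)]
          nlinarith
        set G := mob ((2:ℝ) ^ (-n)) (two_pos' (-n)) with hG
        have g1 : ∀ k, G (mk (lv (tau n k))) = mk (lv k) := by
          intro k
          rw [hG, mob_mk, lv_tau]
          congr 1
          ring
        obtain ⟨h, hh⟩ := move (tau n) G (mob_zero _) (mob_one _) g1
        have g2 : 1/2 ≤ G s := by
          have := G.monotone e1
          rw [hG, mob_mk, add_neg_cancel, mk_zero] at this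
          exact this
        have g3 : G s < 2/3 := by
          have := G.strictMono e2
          rw [hG, mob_mk] at this
          have h2 : n + 1 + -n = 1 := by ring
          rw [h2, mk_one] at this
          exact this
        have hz : z0 ∘ tau n = z0 := rfl
        have hm1 : (z0, G s) ∈ K1 := mem_z0.2 ⟨by linarith, by linarith⟩
        have hm2 : (z0 ∘ tau n, G s) ∈ K1 := hm1
        have hx : h (pt z0 s hm) = pt z0 (G s) hm1 := (hh z0 s hm hm2)
        rcases g2.eq_or_lt with g4 | g4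
        · refine ⟨3, h, ?_⟩
          rw [hx]
          exact pt_congr hm1 mm3 rfl g4.symm
        · obtain ⟨G', b1, b2, b3⟩ := loc (a := 1/2) (b := 2/3) (u := G s) (v := 7/12) g4 g3
            (by norm_num) (by norm_num)
          have b4 : ∀ k, G' (mk (lv ((Equiv.refl ℕ) k))) = mk (lv k) := by
            intro k
            show G' (mk (lv k)) = mk (lv k)
            rcases le_or_gt (lv k) 0 with h5 | h5
            · apply b1
              have := mk_le h5
              rw [mk_zero] at this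
              exact this
            · apply b2
              have := mk_le (show 1 ≤ lv k from h5)
              rw [mk_one] at this
              exact this
          obtain ⟨h', hh'⟩ := move (Equiv.refl ℕ) G' (b1 0 (by norm_num)) (b2 1 (by norm_num)) b4
          refine ⟨4, h.trans h', ?_⟩
          rw [Homeomorph.trans_apply, hx]
          have hm3 : (z0 ∘ (Equiv.refl ℕ), G' (G s)) ∈ K1 := by
            rw [b3]; exact mem_z0.2 ⟨by norm_num, by norm_num⟩
          rw [hh' z0 (G s) hm1 hm3]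
          exact pt_congr hm3 mm4 rfl b3
    · -- a side blade
      have hs1 := (mem_sb.1 hm).2
      set n := lv k with hn
      set G := mob ((2:ℝ) ^ (-n)) (two_pos' (-n)) with hG
      set σ : ℕ ≃ ℕ := (tau n).trans (Equiv.swap (tau n k0) k) with hσ
      have hlt : lv (tau n k0) = lv k := by rw [lv_tau, lv_k0, zero_add]
      have g1 : ∀ j, G (mk (lv (σ j))) = mk (lv j) := by
        intro j
        have : lv (σ j) = lv j + n := by
          show lv (Equiv.swap (tau n k0) k (tau n j)) = _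
          rw [lv_swap hlt, lv_tau]
        rw [this, hG, mob_mk]
        congr 1
        ring
      have hσk : σ k0 = k := by
        show Equiv.swap (tau n k0) k (tau n k0) = k
        rw [Equiv.swap_apply_left]
      obtain ⟨h, hh⟩ := move σ G (mob_zero _) (mob_one _) g1
      have g2 : 0 < G s := by
        have := G.strictMono h0
        rw [hG, mob_zero] at this
        exact this
      have g3 : G s ≤ 1/2 := by
        have := G.monotone hs1
        rw [hG, mob_mk, add_neg_cancel, mk_zero] at this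
        exact this
      have hsk : sb k ∘ σ = sb k0 := by
        rw [← hσk]; exact sb_comp σ k0
      have hm1 : (sb k0, G s) ∈ K1 := mem_sb.2 ⟨g2.le, by rw [lv_k0, mk_zero]; exact g3⟩
      have hm2 : (sb k ∘ σ, G s) ∈ K1 := by rw [hsk]; exact hm1
      have hx : h (pt (sb k) s hm) = pt (sb k0) (G s) hm1 :=
        (hh _ s hm hm2).trans (pt_congr _ _ hsk rfl)
      rcases g3.eq_or_lt with g4 | g4
      · refine ⟨2, h, ?_⟩
        rw [hx]
        exact pt_congr hm1 mm2 rfl g4
      · obtain ⟨G', b1, b2, b3⟩ := loc (a := 0) (b := 1/2) (u := G s) (v := 1/4) g2 g4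
            (by norm_num) (by norm_num)
        obtain ⟨h', hh'⟩ := moveBlade k0 G' (b1 0 le_rfl)
          (by rw [lv_k0, mk_zero]; exact b2 _ le_rfl)
        refine ⟨5, h.trans h', ?_⟩
        rw [Homeomorph.trans_apply, hx]
        have hm3 : (sb k0, G' (G s)) ∈ K1 := by
          rw [b3]; exact mem_sb.2 ⟨by norm_num, by rw [lv_k0, mk_zero]; norm_num⟩
        rw [hh' (G s) hm1 hm3]
        exact pt_congr hm3 mm5 rfl b3

/-! ### the classes -/

/-- the set of endpoints -/
def EX (X : Type*) [TopologicalSpace X] : Set X := {e | IsEndpoint e}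

/-- points on a blade whose endpoint is a limit of endpoints -/
def OnLim {X : Type*} [TopologicalSpace X] (t x : X) : Prop :=
  ∃ (A : Set X) (e : X), IsArc A t e ∧ e ∈ EX X ∧ e ∈ Dv (EX X) ∧ x ∈ A

open Classical in
/-- the class determined by four properties -/
noncomputable def cfn (a b c d : Prop) : Fin 6 :=
  if a then 0 else if b then (if c then 1 else 2) else if c then 3 else if d then 4 else 5

/-- the class of a point -/
noncomputable def cls {X : Type*} [TopologicalSpace X] (t x : X) : Fin 6 :=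
  cfn (x = t) (x ∈ EX X) (x ∈ Dv (EX X)) (OnLim t x)

lemma top_map {X Y : Type*} [MetricSpace X] [MetricSpace Y] {t : X} {t' : Y} (hX : IsFan X t)
    (hY : IsFan Y t') (h : X ≃ₜ Y) : h t = t' := by
  rw [← hY.ramification]
  obtain ⟨A₁, A₂, A₃, x₁, x₂, x₃, h₁, h₂, h₃, h12, h13, h23⟩ := (hX.ramification t).2 rfl
  refine ⟨h '' A₁, h '' A₂, h '' A₃, h x₁, h x₂, h x₃, isArc_image h h₁, isArc_image h h₂,
    isArc_image h h₃, ?_, ?_, ?_⟩
  · rw [← image_inter h.injective, h12, image_singleton]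
  · rw [← image_inter h.injective, h13, image_singleton]
  · rw [← image_inter h.injective, h23, image_singleton]

lemma onLim_map {X Y : Type*} [MetricSpace X] [MetricSpace Y] {t : X} {t' : Y} (hX : IsFan X t)
    (hY : IsFan Y t') (h : X ≃ₜ Y) {x : X} (hx : OnLim t x) : OnLim t' (h x) := by
  obtain ⟨A, e, hA, he, heD, hxA⟩ := hx
  refine ⟨h '' A, h e, ?_, endpoint_image h he, ?_, x, hxA, rfl⟩
  · rw [← top_map hX hY h]; exact isArc_image h hA
  · exact (Dv_homeo h (fun y => endpoint_homeo h y) e).2 heD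

lemma onLim_iff {X Y : Type*} [MetricSpace X] [MetricSpace Y] {t : X} {t' : Y} (hX : IsFan X t)
    (hY : IsFan Y t') (h : X ≃ₜ Y) (x : X) : OnLim t' (h x) ↔ OnLim t x := by
  constructor
  · intro hx
    have := onLim_map hY hX h.symm hx
    rwa [h.symm_apply_apply] at this
  · exact onLim_map hX hY h

/-- homeomorphisms preserve the class -/
lemma cls_map {X Y : Type*} [MetricSpace X] [MetricSpace Y] {t : X} {t' : Y} (hX : IsFan X t)
    (hY : IsFan Y t') (h : X ≃ₜ Y) (x : X) : cls t' (h x) = cls t x := by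
  have e1 : h x = t' ↔ x = t := by
    rw [← top_map hX hY h]; exact h.injective.eq_iff
  have e2 : h x ∈ EX Y ↔ x ∈ EX X := endpoint_homeo h x
  have e3 : h x ∈ Dv (EX Y) ↔ x ∈ Dv (EX X) := Dv_homeo h (fun y => endpoint_homeo h y) x
  have e4 := onLim_iff hX hY h x
  unfold cls
  rw [propext e1, propext e2, propext e3, propext e4]

/-! ### endpoints of the first fan -/

lemma end_z0 {s : ℝ} (h : (z0, s) ∈ K1) (hs : 0 < s) : pt z0 s h ∈ EX (Fan K1) ↔ s = 1 := by
  show IsEndpoint _ ↔ _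
  rw [endpoint_iff goodK1]
  constructor
  · rintro ⟨c, u, h', hu, htip, he⟩
    obtain ⟨rfl, rfl⟩ := pt_inj hs.ne' he
    exact le_antisymm (mem_z0.1 h).2 (htip 1 (mem_z0.2 ⟨zero_le_one, le_rfl⟩))
  · rintro rfl
    exact ⟨z0, 1, h, one_pos, fun u hu => (mem_z0.1 hu).2, rfl⟩

lemma end_sb {k : ℕ} {s : ℝ} (h : (sb k, s) ∈ K1) (hs : 0 < s) :
    pt (sb k) s h ∈ EX (Fan K1) ↔ s = mk (lv k) := by
  show IsEndpoint _ ↔ _
  rw [endpoint_iff goodK1]
  constructor
  · rintro ⟨c, u, h', hu, htip, he⟩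
    obtain ⟨rfl, rfl⟩ := pt_inj hs.ne' he
    exact le_antisymm (mem_sb.1 h).2 (htip _ (mem_sb.2 ⟨(mk_pos _).le, le_rfl⟩))
  · rintro rfl
    exact ⟨sb k, _, h, mk_pos _, fun u hu => (mem_sb.1 hu).2, rfl⟩

lemma end_cases {x : Fan K1} (hx : x ∈ EX (Fan K1)) :
    x = rep 1 ∨ ∃ k, x = pt (sb k) (mk (lv k)) (mmk k) := by
  obtain ⟨c, s, h, hs, htip, rfl⟩ := (endpoint_iff goodK1 x).1 hx
  rcases K1_cases h hs with rfl | ⟨k, rfl⟩
  · left
    rw [end_z0 h hs] at hx
    exact pt_congr h mm1 rfl hx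
  · right
    rw [end_sb h hs] at hx
    exact ⟨k, pt_congr h (mmk k) rfl hx⟩

/-- side blades are isolated -/
lemma not_Dv_sb {k : ℕ} {s : ℝ} (h : (sb k, s) ∈ K1) (hs : 0 < s) :
    pt (sb k) s h ∉ Dv (EX (Fan K1)) := by
  intro hD
  -- `ε` separates `s` from the tip unless it is the tip
  set ε : ℝ := if s = mk (lv k) then s / 2 else min (s / 2) |mk (lv k) - s| with hε
  have e0 : 0 < ε := by
    rw [hε]
    split_ifs with h1
    · linarith
    · exact lt_min (by linarith) (abs_pos.2 (sub_ne_zero.2 (Ne.symm h1)))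
  have e1 : ε ≤ s / 2 := by
    rw [hε]
    split_ifs
    · exact le_rfl
    · exact min_le_left _ _
  obtain ⟨U, hU, hUe⟩ := nbhd goodK1 (h := h) hs (k + 1) e0
  obtain ⟨y, hy, hyE, hyx⟩ := hD U hU
  rcases end_cases hyE with rfl | ⟨l, rfl⟩
  · obtain ⟨h1, h2⟩ := hUe z0 1 mm1 hy
    have := h1 k (by omega)
    rw [sb_iff.2 rfl] at this
    exact Bool.noConfusion this
  · obtain ⟨h1, h2⟩ := hUe _ _ _ hy
    have h3 : sb l k = true := by rw [h1 k (by omega)]; exact sb_iff.2 rfl
    have h4 : k = l := sb_iff.1 h3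
    subst h4
    by_cases h5 : s = mk (lv k)
    · apply hyx
      exact pt_congr (mmk k) h rfl h5.symm
    · rw [hε, if_neg h5] at h2
      exact absurd (h2.trans_le (min_le_right _ _)) (lt_irrefl _)

/-- marks are limits of endpoints -/
lemma Dv_of {s : ℝ} (h : (z0, s) ∈ K1) (hs : ∀ ε > 0, ∃ n, |mk n - s| < ε) :
    pt z0 s h ∈ Dv (EX (Fan K1)) := by
  intro U hU
  obtain ⟨M, ε, hε, hMU⟩ := approx hU
  obtain ⟨n, hn⟩ := hs ε hε
  obtain ⟨k, hk, hkn⟩ := lv_large n M
  have hm : (sb k, mk (lv k)) ∈ K1 := mem_sb.2 ⟨(mk_pos _).le, le_rfl⟩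
  refine ⟨pt (sb k) (mk (lv k)) hm, hMU _ _ _ ?_ ?_, (end_sb hm (mk_pos _)).2 rfl, ?_⟩
  · intro j hj
    have : sb k j ≠ true := by
      intro h1
      have := sb_iff.1 h1
      omega
    rw [Bool.eq_false_iff.2 this]
    rfl
  · rw [hkn]; exact hn
  · intro he
    exact sb_ne k (pt_inj (mk_pos _).ne' he).1

lemma mk_tendsto {ε : ℝ} (hε : 0 < ε) : ∃ n, |mk n - 1| < ε := by
  obtain ⟨n, hn⟩ := pow_unbounded_of_one_lt (1 / ε) (show (1:ℝ) < 2 by norm_num)
  refine ⟨n, ?_⟩
  have h1 : (0:ℝ) < 2 ^ n := by positivity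
  have h2 : mk (n : ℤ) - 1 = -(1 / (1 + 2 ^ n)) := by
    unfold mk
    rw [zpow_natCast]
    field_simp
    ring
  rw [h2, abs_neg, abs_of_pos (by positivity)]
  rw [div_lt_iff₀ hε] at hn
  rw [div_lt_iff₀ (by linarith)]
  nlinarith

lemma rep_ne_top {i : Fin 6} (hi : i ≠ 0) : rep i ≠ top goodK1 := by
  fin_cases i
  · exact absurd rfl hi
  · exact pt_ne_top goodK1 (h := mm1) one_ne_zero
  · exact pt_ne_top goodK1 (h := mm2) (by norm_num)
  · exact pt_ne_top goodK1 (h := mm3) (by norm_num)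
  · exact pt_ne_top goodK1 (h := mm4) (by norm_num)
  · exact pt_ne_top goodK1 (h := mm5) (by norm_num)

lemma E1 : rep 1 ∈ EX (Fan K1) := (end_z0 mm1 one_pos).2 rfl

lemma D1 : rep 1 ∈ Dv (EX (Fan K1)) := Dv_of mm1 fun ε hε => mk_tendsto hε

lemma E2 : rep 2 ∈ EX (Fan K1) := (end_sb mm2 (by norm_num)).2 (by rw [lv_k0, mk_zero])

lemma D2 : rep 2 ∉ Dv (EX (Fan K1)) := not_Dv_sb mm2 (by norm_num)

lemma E3 : rep 3 ∉ EX (Fan K1) := fun h => by
  have := (end_z0 mm3 (by norm_num)).1 h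
  norm_num at this

lemma D3 : rep 3 ∈ Dv (EX (Fan K1)) := Dv_of mm3 fun ε hε => ⟨0, by
  rw [mk_zero]; simpa using hε⟩

lemma E4 : rep 4 ∉ EX (Fan K1) := fun h => by
  have := (end_z0 mm4 (by norm_num)).1 h
  norm_num at this

lemma D4 : rep 4 ∉ Dv (EX (Fan K1)) := by
  intro hD
  obtain ⟨U, hU, hUe⟩ := nbhd goodK1 (c := z0) (s := 7/12)
    (h := mm4) (by norm_num) 0 (show (0:ℝ) < 1/12 by norm_num)
  obtain ⟨y, hy, hyE, hyx⟩ := hD U hU
  rcases end_cases hyE with rfl | ⟨l, rfl⟩
  · obtain ⟨h1, h2⟩ := hUe z0 1 mm1 hy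
    rw [abs_lt] at h2
    norm_num at h2
  · obtain ⟨h1, h2⟩ := hUe _ _ _ hy
    rw [abs_lt] at h2
    rcases le_or_gt (lv l) 0 with h5 | h5
    · have := mk_le h5
      rw [mk_zero] at this
      linarith [h2.1]
    · have := mk_le (show 1 ≤ lv l from h5)
      rw [mk_one] at this
      linarith [h2.2]

lemma P4 : OnLim (top goodK1) (rep 4) := by
  refine ⟨_, rep 1, blade_isArc goodK1 one_pos mm1, E1, D1, ?_⟩
  exact ⟨7/12, ⟨by norm_num, by norm_num⟩, rfl⟩

lemma E5 : rep 5 ∉ EX (Fan K1) := fun h => by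
  have := (end_sb mm5 (by norm_num)).1 h
  rw [lv_k0, mk_zero] at this
  norm_num at this

lemma D5 : rep 5 ∉ Dv (EX (Fan K1)) := not_Dv_sb mm5 (by norm_num)

/-- only one endpoint is a limit of endpoints -/
lemma lim_end {x : Fan K1} (hx : x ∈ EX (Fan K1)) (hx' : x ∈ Dv (EX (Fan K1))) : x = rep 1 := by
  rcases end_cases hx with h | ⟨k, rfl⟩
  · exact h
  · exact absurd hx' (not_Dv_sb _ (mk_pos _))

lemma P5 : ¬ OnLim (top goodK1) (rep 5) := by
  rintro ⟨A, e, hA, he, heD, hxA⟩
  rw [lim_end he heD] at hA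
  rw [arc_unique goodK1 one_pos mm1 hA] at hxA
  obtain ⟨u, hu, hue⟩ := hxA
  have h1 : pr (z0, u) = pr (sb k0, 1/4) := hue
  have := pr_inj h1.symm (by norm_num)
  exact sb_ne k0 (congrArg Prod.fst this)

lemma cls_rep (i : Fin 6) : cls (top goodK1) (rep i) = i := by
  fin_cases i
  · show cls (top goodK1) (top goodK1) = 0
    unfold cls cfn
    rw [if_pos rfl]
  · show cls (top goodK1) (rep 1) = 1
    unfold cls cfn
    rw [if_neg (rep_ne_top (by decide)), if_pos E1, if_pos D1]
  · show cls (top goodK1) (rep 2) = 2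
    unfold cls cfn
    rw [if_neg (rep_ne_top (by decide)), if_pos E2, if_neg D2]
  · show cls (top goodK1) (rep 3) = 3
    unfold cls cfn
    rw [if_neg (rep_ne_top (by decide)), if_neg E3, if_pos D3]
  · show cls (top goodK1) (rep 4) = 4
    unfold cls cfn
    rw [if_neg (rep_ne_top (by decide)), if_neg E4, if_neg D4, if_pos P4]
  · show cls (top goodK1) (rep 5) = 5
    unfold cls cfn
    rw [if_neg (rep_ne_top (by decide)), if_neg E5, if_neg D5, if_neg P5]

/-! ### the wedge -/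

/-- two copies -/
abbrev KD : Bool → Set (Cs × ℝ) := fun _ => K1

lemma goodKD (b : Bool) : Good (KD b) := goodK1

/-- the inclusion of a copy -/
noncomputable def inD (b : Bool) (p : Fan K1) : Fan (WK KD) := inc KD b p

lemma inD_cont (b : Bool) : Continuous (inD b) := inc_cont (K := KD) b

lemma inD_inj (b : Bool) : Function.Injective (inD b) := inc_inj (K := KD) b

lemma inD_top (b : Bool) : inD b (top goodK1) = top (good_WK goodKD) := inc_top goodKD b

lemma inD_cover (x : Fan (WK KD)) : ∃ b p, x = inD b p := inc_cover goodKD x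

lemma inD_disj {b b' : Bool} (hb : b ≠ b') {p p' : Fan K1} (h : inD b p = inD b' p') :
    p = top goodK1 := inc_disj goodKD hb h

/-- gluing maps on the two parts of a wedge -/
lemma glue {Y : Type*} [TopologicalSpace Y] (f : Bool → Fan K1 → Y) (hf : ∀ b, Continuous (f b))
    (h0 : f false (top goodK1) = f true (top goodK1)) :
    ∃ F : Fan (WK KD) → Y, Continuous F ∧ ∀ b p, F (inD b p) = f b p := by
  classical
  have : CompactSpace (Fan K1) := (isFan goodK1).compact
  set j : (Bool × Fan K1) → Fan (WK KD) := fun q => inD q.1 q.2 with hj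
  have hjc : Continuous j := by
    rw [continuous_prod_of_discrete_left]
    intro b
    exact inD_cont b
  have hjs : Function.Surjective j := by
    intro x
    obtain ⟨b, q, hq⟩ := inD_cover x
    exact ⟨(b, q), hq.symm⟩
  have hq : IsQuotientMap j := hjc.isClosedMap.isQuotientMap hjc hjs
  have key : ∀ q q' : Bool × Fan K1, j q = j q' → f q.1 q.2 = f q'.1 q'.2 := by
    rintro ⟨b, p⟩ ⟨b', p'⟩ h
    by_cases hb : b = b'
    · subst hb
      have := inD_inj b h
      simp only at this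
      rw [this]
    · have h1 : p = top goodK1 := inD_disj hb h
      have h2 : p' = top goodK1 := inD_disj (Ne.symm hb) h.symm
      subst h1
      subst h2
      cases b <;> cases b' <;> simp_all
  choose g hg using hjs
  refine ⟨fun x => f (g x).1 (g x).2, ?_, fun b p => key _ (b, p) (hg _)⟩
  rw [hq.continuous_iff]
  have h1 : (fun x => f (g x).1 (g x).2) ∘ j = fun q : Bool × Fan K1 => f q.1 q.2 := by
    funext q
    exact key _ _ (hg _)
  rw [h1, continuous_prod_of_discrete_left]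
  exact hf

/-- a homeomorphism of the fan acts on both copies -/
lemma both (h : Fan K1 ≃ₜ Fan K1) : ∃ H : Fan (WK KD) ≃ₜ Fan (WK KD),
    ∀ b p, H (inD b p) = inD b (h p) := by
  have ht : ∀ h : Fan K1 ≃ₜ Fan K1, h (top goodK1) = top goodK1 :=
    fun h => top_map (isFan goodK1) (isFan goodK1) h
  obtain ⟨F, hF, hFe⟩ := glue (fun b p => inD b (h p)) (fun b => (inD_cont b).comp h.continuous)
    (by rw [ht, inD_top, inD_top])
  obtain ⟨G, hG, hGe⟩ := glue (fun b p => inD b (h.symm p))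
    (fun b => (inD_cont b).comp h.symm.continuous)
    (by rw [ht, inD_top, inD_top])
  refine ⟨{ toFun := F, invFun := G, left_inv := ?_, right_inv := ?_, continuous_toFun := hF,
            continuous_invFun := hG }, hFe⟩
  · intro x
    obtain ⟨b, q, rfl⟩ := inD_cover x
    rw [hFe, hGe, h.symm_apply_apply]
  · intro x
    obtain ⟨b, q, rfl⟩ := inD_cover x
    rw [hGe, hFe, h.apply_symm_apply]

/-- interchanging the two copies -/
lemma swp : ∃ H : Fan (WK KD) ≃ₜ Fan (WK KD), ∀ b p, H (inD b p) = inD (!b) p := by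
  obtain ⟨F, hF, hFe⟩ := glue (fun b p => inD (!b) p) (fun b => inD_cont _)
    (by rw [inD_top, inD_top])
  have hFF : ∀ x, F (F x) = x := by
    intro x
    obtain ⟨b, q, rfl⟩ := inD_cover x
    rw [hFe, hFe, Bool.not_not]
  exact ⟨{ toFun := F, invFun := F, left_inv := hFF, right_inv := hFF, continuous_toFun := hF,
           continuous_invFun := hF }, hFe⟩

theorem to_rep' (x : Fan (WK KD)) : ∃ i, ∃ h : Fan (WK KD) ≃ₜ Fan (WK KD),
    h x = inD false (rep i) := by
  obtain ⟨b, q, rfl⟩ := inD_cover x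
  obtain ⟨i, h, hi⟩ := to_rep q
  obtain ⟨H, hH⟩ := both h
  obtain ⟨S, hS⟩ := swp
  cases b with
  | false =>
    refine ⟨i, H, ?_⟩
    rw [hH, hi]
  | true =>
    refine ⟨i, H.trans S, ?_⟩
    rw [Homeomorph.trans_apply, hH, hi, hS]
    rfl

lemma EX_inD {b : Bool} (p : Fan K1) : inD b p ∈ EX (Fan (WK KD)) ↔ p ∈ EX (Fan K1) :=
  endpoint_inc goodKD (b := b) p

lemma Dv_inD {b : Bool} {p : Fan K1} (hp : p ≠ top goodK1) :
    inD b p ∈ Dv (EX (Fan (WK KD))) ↔ p ∈ Dv (EX (Fan K1)) :=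
  Dv_inc goodKD (b := b) (fun y _ => EX_inD y) hp

lemma end_ne_top {p : Fan K1} (hp : p ∈ EX (Fan K1)) : p ≠ top goodK1 := by
  obtain ⟨c, s, h, hs, _, rfl⟩ := (endpoint_iff goodK1 p).1 hp
  exact pt_ne_top goodK1 hs.ne'

lemma inD_pt {b : Bool} {c : Cs} {s : ℝ} (h : (c, s) ∈ K1) :
    inD b (pt c s h) = pt (cns b c) s (mem_WK.2 h : (cns b c, s) ∈ WK KD) :=
  inc_pt (K := KD) (b := b) h

lemma isArc_inD {b : Bool} {A : Set (Fan K1)} {x y : Fan K1} (h : IsArc A x y) :
    IsArc (inD b '' A) (inD b x) (inD b y) := isArc_inc goodKD (b := b) h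

lemma onLim_inD {b : Bool} {p : Fan K1} (hp : p ≠ top goodK1) :
    OnLim (top (good_WK goodKD)) (inD b p) ↔ OnLim (top goodK1) p := by
  constructor
  · rintro ⟨A, e, hA, he, heD, hxA⟩
    obtain ⟨b', e', rfl⟩ := inD_cover e
    have he' : e' ∈ EX (Fan K1) := (EX_inD e').1 he
    have heD' : e' ∈ Dv (EX (Fan K1)) := (Dv_inD (end_ne_top he')).1 heD
    obtain ⟨c, s, hcs, hs, htip, rfl⟩ := (endpoint_iff goodK1 e').1 he'
    have harc := blade_isArc goodK1 hs hcs
    set A' : Set (Fan K1) := Subtype.val ⁻¹' ((fun u => pr (c, u)) '' Icc 0 s) with hA'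
    have hAA : A = inD b' '' A' := by
      have h2 : IsArc (inD b' '' A') (top (good_WK goodKD)) (inD b' (pt c s hcs)) := by
        rw [← inD_top b']
        exact isArc_inD harc
      rw [inD_pt] at hA h2
      rw [arc_unique (good_WK goodKD) hs _ hA, arc_unique (good_WK goodKD) hs _ h2]
    rw [hAA] at hxA
    obtain ⟨y, hy, hye⟩ := hxA
    by_cases hb : b = b'
    · subst hb
      have := inD_inj b hye
      subst this
      exact ⟨A', _, harc, he', heD', hy⟩
    · exact absurd (inD_disj hb hye.symm) hp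
  · rintro ⟨A, e, hA, he, heD, hxA⟩
    refine ⟨inD b '' A, inD b e, ?_, (EX_inD e).2 he, (Dv_inD (end_ne_top he)).2 heD,
      p, hxA, rfl⟩
    rw [← inD_top b]
    exact isArc_inD hA

lemma cls_inD {b : Bool} (p : Fan K1) :
    cls (top (good_WK goodKD)) (inD b p) = cls (top goodK1) p := by
  by_cases hp : p = top goodK1
  · subst hp
    rw [inD_top]
    unfold cls cfn
    rw [if_pos rfl, if_pos rfl]
  · have h0 : inD b p ≠ top (good_WK goodKD) := by
      intro h
      rw [← inD_top b] at h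
      exact hp (inD_inj b h)
    have e1 : inD b p = top (good_WK goodKD) ↔ p = top goodK1 := iff_of_false h0 hp
    unfold cls
    rw [propext e1, propext (EX_inD (b := b) p), propext (Dv_inD (b := b) hp),
      propext (onLim_inD (b := b) hp)]

/-! ### conclusions -/

/-- the homeomorphism group of `X` has exactly `n` orbits -/
def HasDegree (X : Type*) [TopologicalSpace X] (n : ℕ) : Prop :=
  ∃ f : X → Fin n, Function.Surjective f ∧ ∀ x y, f x = f y ↔ ∃ h : X ≃ₜ X, h x = y

lemma degree_of {X : Type*} [MetricSpace X] {t : X} (hX : IsFan X t) (r : Fin 6 → X)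
    (hr : ∀ i, cls t (r i) = i) (hx : ∀ x, ∃ i, ∃ h : X ≃ₜ X, h x = r i) : HasDegree X 6 := by
  refine ⟨cls t, fun i => ⟨r i, hr i⟩, fun x y => ?_⟩
  constructor
  · intro hxy
    obtain ⟨i, h, hi⟩ := hx x
    obtain ⟨j, h', hj⟩ := hx y
    have e1 : cls t x = i := by rw [← cls_map hX hX h x, hi, hr]
    have e2 : cls t y = j := by rw [← cls_map hX hX h' y, hj, hr]
    have e3 : i = j := by rw [← e1, ← e2, hxy]
    subst e3
    refine ⟨h.trans h'.symm, ?_⟩
    rw [Homeomorph.trans_apply, hi, ← hj, h'.symm_apply_apply]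
  · rintro ⟨h, rfl⟩
    exact (cls_map hX hX h x).symm

theorem degree1 : HasDegree (Fan K1) 6 := degree_of (isFan goodK1) rep cls_rep to_rep

theorem degree2 : HasDegree (Fan (WK KD)) 6 :=
  degree_of (isFan (good_WK goodKD)) (fun i => inD false (rep i))
    (fun i => by rw [cls_inD, cls_rep]) to_rep'

theorem not_homeo6 : ¬ Nonempty (Fan K1 ≃ₜ Fan (WK KD)) := by
  rintro ⟨h⟩
  have key : ∀ b : Bool, h.symm (inD b (rep 1)) = rep 1 := by
    intro b
    have h1 : inD b (rep 1) ∈ EX (Fan (WK KD)) := (EX_inD _).2 E1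
    have h2 : inD b (rep 1) ∈ Dv (EX (Fan (WK KD))) :=
      (Dv_inD (rep_ne_top (by decide))).2 D1
    apply lim_end
    · exact endpoint_image h.symm h1
    · exact (Dv_homeo h.symm (fun y => endpoint_homeo h.symm y) _).2 h2
  have h1 := h.symm.injective ((key false).trans (key true).symm)
  exact rep_ne_top (i := 1) (by decide) (inD_disj (by decide) h1)

end Pool.Agent.R813.FanSix
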