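import Pool.Agent.H545R3.FanFinal

/-! # The wedge at the top of two smooth fans

`WK K` puts the fan `Fan (K false)` and the fan `Fan (K true)` side by side, joined at the top. -/

set_option autoImplicit false
set_option linter.unusedVariables false
set_option linter.unusedSectionVars false
set_option linter.dupNamespace false
set_option linter.unusedSimpArgs false

namespace Pool.Agent.R813.FanWedge

open Set Topology Filter Pool.Agent.H545R3.Fan

/-- put a digit in front -/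
def cns (b : Bool) (d : Cs) : Cs := fun n => Nat.casesOn n b d

/-- delete the first digit -/
def tl (c : Cs) : Cs := fun n => c (n + 1)

@[simp] lemma cns_zero (b : Bool) (d : Cs) : cns b d 0 = b := rfl

@[simp] lemma cns_succ (b : Bool) (d : Cs) (n : ℕ) : cns b d (n + 1) = d n := rfl

@[simp] lemma tl_cns (b : Bool) (d : Cs) : tl (cns b d) = d := rfl

lemma cns_tl (c : Cs) : cns (c 0) (tl c) = c := by
  funext n
  cases n <;> rfl

lemma cns_inj {b b' : Bool} {d d' : Cs} (h : cns b d = cns b' d') : b = b' ∧ d = d' :=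
  ⟨congrFun h 0, congrArg tl h⟩

lemma tl_cont : Continuous tl := continuous_pi fun n => continuous_apply (n + 1)

lemma cns_cont (b : Bool) : Continuous (cns b) := by
  apply continuous_pi
  intro n
  cases n with
  | zero => exact continuous_const
  | succ n => exact continuous_apply n

lemma xc_cns (b : Bool) (d : Cs) : xc (cns b d) = (if b then 1 else 0) + xc d / 3 := by
  unfold xc
  rw [Cardinal.cantorFunction_succ _ (by norm_num) (by norm_num)]
  have : (fun n => cns b d (n + 1)) = d := rfl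
  rw [this, cns_zero]
  cases b <;> simp <;> ring

/-- the wedge of two admissible sets -/
def WK (K : Bool → Set (Cs × ℝ)) : Set (Cs × ℝ) := {q | (tl q.1, q.2) ∈ K (q.1 0)}

variable {K : Bool → Set (Cs × ℝ)}

lemma mem_WK {b : Bool} {d : Cs} {s : ℝ} : (cns b d, s) ∈ WK K ↔ (d, s) ∈ K b := Iff.rfl

lemma mem_WK' {c : Cs} {s : ℝ} : (c, s) ∈ WK K ↔ (tl c, s) ∈ K (c 0) := Iff.rfl

lemma good_WK (hK : ∀ b, Good (K b)) : Good (WK K) where
  comp := by
    have h1 : WK K = ⋃ b, (fun q : Cs × ℝ => (cns b q.1, q.2)) '' K b := by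
      ext ⟨c, s⟩
      constructor
      · intro h
        exact mem_iUnion.2 ⟨c 0, (tl c, s), h, by simp [cns_tl]⟩
      · intro h
        obtain ⟨b, ⟨d, u⟩, hq, he⟩ := mem_iUnion.1 h
        simp only [Prod.mk.injEq] at he
        obtain ⟨rfl, rfl⟩ := he
        exact hq
    rw [h1]
    apply isCompact_iUnion
    intro b
    exact (hK b).comp.image (((cns_cont b).comp continuous_fst).prodMk continuous_snd)
  nonneg := fun q hq => (hK (q.1 0)).nonneg (tl q.1, q.2) hq
  down := fun c s s' h h0 hs => (hK (c 0)).down (tl c) s s' h h0 hs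
  zero := fun c => (hK (c 0)).zero (tl c)
  three := by
    obtain ⟨c₁, c₂, c₃, s₁, s₂, s₃, h12, h13, h23, hs₁, hs₂, hs₃, k₁, k₂, k₃⟩ := (hK false).three
    exact ⟨cns false c₁, cns false c₂, cns false c₃, s₁, s₂, s₃,
      fun h => h12 (cns_inj h).2, fun h => h13 (cns_inj h).2, fun h => h23 (cns_inj h).2,
      hs₁, hs₂, hs₃, k₁, k₂, k₃⟩

lemma pr_cns (b : Bool) (d : Cs) (s : ℝ) :
    pr (cns b d, s) = ((pr (d, s)).1 / 3 + (if b then 1 else 0) * (pr (d, s)).2, (pr (d, s)).2) := by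
  unfold pr
  rw [xc_cns]
  ext
  · simp only
    ring
  · rfl

/-- the inclusion of one of the two fans -/
noncomputable def inc (K : Bool → Set (Cs × ℝ)) (b : Bool) : Fan (K b) → Fan (WK K) := fun p =>
  ⟨((p : ℝ × ℝ).1 / 3 + (if b then 1 else 0) * (p : ℝ × ℝ).2, (p : ℝ × ℝ).2), by
    obtain ⟨⟨d, s⟩, hq, hp⟩ := p.2
    refine ⟨(cns b d, s), hq, ?_⟩
    rw [pr_cns, hp]⟩

lemma inc_pt {b : Bool} {d : Cs} {s : ℝ} (h : (d, s) ∈ K b) :
    inc K b (pt d s h) = pt (cns b d) s (mem_WK.2 h) := by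
  apply Subtype.ext
  show _ = pr (cns b d, s)
  rw [pr_cns]
  rfl

lemma inc_cont (b : Bool) : Continuous (inc K b) := by
  unfold inc
  apply Continuous.subtype_mk
  fun_prop

lemma inc_inj (b : Bool) : Function.Injective (inc K b) := by
  intro p p' h
  have h1 : ((p : ℝ × ℝ).1 / 3 + (if b then 1 else 0) * (p : ℝ × ℝ).2, (p : ℝ × ℝ).2) =
    ((p' : ℝ × ℝ).1 / 3 + (if b then 1 else 0) * (p' : ℝ × ℝ).2, (p' : ℝ × ℝ).2) :=
    congrArg Subtype.val h
  rw [Prod.mk.injEq] at h1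
  obtain ⟨h2, h3⟩ := h1
  rw [h3] at h2
  apply Subtype.ext
  apply Prod.ext
  · linarith
  · exact h3

lemma inc_top (hK : ∀ b, Good (K b)) (b : Bool) : inc K b (top (hK b)) = top (good_WK hK) := by
  apply Subtype.ext
  show ((0:ℝ) / 3 + (if b then 1 else 0) * (0:ℝ), (0:ℝ)) = (0 : ℝ × ℝ)
  ext <;> simp

lemma inc_closed (hK : ∀ b, Good (K b)) (b : Bool) : IsClosedEmbedding (inc K b) := by
  have : CompactSpace (Fan (K b)) := (isFan (hK b)).compact
  exact (inc_cont b).isClosedEmbedding (inc_inj b)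

lemma inc_cover (hK : ∀ b, Good (K b)) (p : Fan (WK K)) : ∃ b q, p = inc K b q := by
  obtain ⟨c, s, h, hs, rfl⟩ := repr (good_WK hK) p
  have h' : (tl c, s) ∈ K (c 0) := h
  refine ⟨c 0, pt (tl c) s h', ?_⟩
  rw [inc_pt h']
  apply Subtype.ext
  show pr (c, s) = pr (cns (c 0) (tl c), s)
  rw [cns_tl]

lemma inc_disj (hK : ∀ b, Good (K b)) {b b' : Bool} (hb : b ≠ b') {p : Fan (K b)}
    {p' : Fan (K b')} (h : inc K b p = inc K b' p') : p = top (hK b) := by
  obtain ⟨c, s, hc, hs, rfl⟩ := repr (hK b) p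
  obtain ⟨c', s', hc', hs', rfl⟩ := repr (hK b') p'
  rw [inc_pt, inc_pt] at h
  by_cases h0 : s = 0
  · subst h0
    exact pt_zero _ _
  · exact absurd (cns_inj (pt_inj h0 h).1).1 hb

/-- near a point other than the top the wedge is one of the two fans -/
lemma range_nhds (hK : ∀ b, Good (K b)) {b : Bool} {p : Fan (K b)} (hp : p ≠ top (hK b)) :
    range (inc K b) ∈ 𝓝 (inc K b p) := by
  have h1 : IsOpen (range (inc K (!b)))ᶜ := (inc_closed hK (!b)).isClosed_range.isOpen_compl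
  have h2 : inc K b p ∈ (range (inc K (!b)))ᶜ := by
    rintro ⟨q, hq⟩
    exact hp (inc_disj hK (by cases b <;> simp) hq.symm)
  apply mem_of_superset (h1.mem_nhds h2)
  intro x hx
  obtain ⟨b', q, rfl⟩ := inc_cover hK x
  by_cases hb : b' = b
  · subst hb; exact ⟨q, rfl⟩
  · exfalso
    have : b' = !b := by cases b <;> cases b' <;> simp_all
    subst this
    exact hx ⟨q, rfl⟩

lemma endpoint_inc (hK : ∀ b, Good (K b)) {b : Bool} (p : Fan (K b)) :
    IsEndpoint (inc K b p) ↔ IsEndpoint p := by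
  rw [endpoint_iff (good_WK hK), endpoint_iff (hK b)]
  constructor
  · rintro ⟨c, s, h, hs, htip, he⟩
    obtain ⟨d, u, hd, hu, rfl⟩ := repr (hK b) p
    rw [inc_pt] at he
    have h1 := pt_inj hs.ne' he.symm
    obtain ⟨rfl, rfl⟩ := h1
    exact ⟨d, s, hd, hs, fun u hu => htip u hu, rfl⟩
  · rintro ⟨c, s, h, hs, htip, rfl⟩
    rw [inc_pt]
    exact ⟨cns b c, s, h, hs, fun u hu => htip u hu, rfl⟩

lemma Dv_inc (hK : ∀ b, Good (K b)) {b : Bool} {A : Set (Fan (WK K))} {B : Set (Fan (K b))}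
    (hAB : ∀ x, x ≠ top (hK b) → (inc K b x ∈ A ↔ x ∈ B)) {p : Fan (K b)} (hp : p ≠ top (hK b)) :
    inc K b p ∈ Dv A ↔ p ∈ Dv B := by
  have hemb := inc_closed hK b
  constructor
  · intro h U hU
    have h1 : (inc K b) '' (U ∩ {top (hK b)}ᶜ) ∈ 𝓝 (inc K b p) := by
      have h2 : U ∩ {top (hK b)}ᶜ ∈ 𝓝 p := inter_mem hU (isOpen_compl_singleton.mem_nhds hp)
      rw [hemb.isInducing.nhds_eq_comap, mem_comap] at h2
      obtain ⟨V, hV, hVU⟩ := h2
      apply mem_of_superset (inter_mem hV (range_nhds hK hp))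
      rintro _ ⟨hx, q, rfl⟩
      exact ⟨q, hVU hx, rfl⟩
    obtain ⟨y, ⟨q, hq, rfl⟩, hyA, hyp⟩ := h _ h1
    exact ⟨q, hq.1, (hAB q hq.2).1 hyA, fun he => hyp (by rw [he])⟩
  · intro h U hU
    have h1 : inc K b ⁻¹' U ∩ {top (hK b)}ᶜ ∈ 𝓝 p :=
      inter_mem ((inc_cont b).continuousAt.preimage_mem_nhds hU)
        (isOpen_compl_singleton.mem_nhds hp)
    obtain ⟨q, hq, hqB, hqp⟩ := h _ h1
    exact ⟨inc K b q, hq.1, (hAB q hq.2).2 hqB, fun he => hqp (hemb.injective he)⟩

lemma isArc_inc (hK : ∀ b, Good (K b)) {b : Bool} {A : Set (Fan (K b))} {x y : Fan (K b)}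
    (h : IsArc A x y) : IsArc (inc K b '' A) (inc K b x) (inc K b y) := by
  obtain ⟨f, hf, hfi, hf0, hf1, hfr⟩ := h
  exact ⟨inc K b ∘ f, (inc_cont b).comp hf, (inc_inj b).comp hfi, by simp [hf0], by simp [hf1],
    by rw [range_comp, hfr]⟩

lemma closure_inc (hK : ∀ b, Good (K b)) {b : Bool} (A : Set (Fan (K b))) :
    closure (inc K b '' A) = inc K b '' closure A :=
  ((inc_closed hK b).closure_image_eq A)

/-- The wedge of two `Z`-EPG fans is `Z`-EPG, if `0 ∈ Z`. -/
theorem epg_WK (hK : ∀ b, Good (K b)) {Z : Set unitInterval} (h0 : (0 : unitInterval) ∈ Z)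
    (hZ : ∀ b, IsEPG (top (hK b)) Z) : IsEPG (top (good_WK hK)) Z := by
  intro B e he hB
  obtain ⟨b, e', rfl⟩ := inc_cover hK e
  rw [endpoint_inc hK] at he
  obtain ⟨d, s, hd, hs, htip, hde⟩ := (endpoint_iff (hK b) e').1 he
  have harc := blade_isArc (hK b) hs hd
  rw [← hde] at harc
  set B' : Set (Fan (K b)) := Subtype.val ⁻¹' ((fun u => pr (d, u)) '' Icc 0 s) with hB'
  have hBB' : B = inc K b '' B' := by
    have h1 : IsArc B (top (good_WK hK)) (pt (cns b d) s (mem_WK.2 hd)) := by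
      rw [← inc_pt hd, ← hde]; exact hB
    have h2 : IsArc (inc K b '' B') (top (good_WK hK)) (pt (cns b d) s (mem_WK.2 hd)) := by
      rw [← inc_pt hd, ← hde, ← inc_top hK b]; exact isArc_inc hK harc
    rw [arc_unique (good_WK hK) hs _ h1, arc_unique (good_WK hK) hs _ h2]
  obtain ⟨φ, hφ0, hφ1, hφZ⟩ := hZ b B' e' he harc
  -- the composed homeomorphism
  set f : unitInterval → Fan (WK K) := fun t => inc K b (φ t) with hf
  have hfc : Continuous f := (inc_cont b).comp (continuous_subtype_val.comp φ.continuous)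
  have hfi : Function.Injective f :=
    (inc_inj b).comp (Subtype.val_injective.comp φ.injective)
  have hfr : Set.range f = B := by
    rw [hBB']
    ext p
    constructor
    · rintro ⟨t, rfl⟩
      exact ⟨φ t, (φ t).2, rfl⟩
    · rintro ⟨q, hq, rfl⟩
      exact ⟨φ.symm ⟨q, hq⟩, by simp [hf]⟩
  have hemb : IsEmbedding f := (hfc.isClosedEmbedding hfi).isEmbedding
  refine ⟨hemb.toHomeomorph.trans (Homeomorph.setCongr hfr), ?_, ?_, ?_⟩
  · show inc K b (φ 0) = _
    rw [hφ0, inc_top]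
  · show inc K b (φ 1) = _
    rw [hφ1]
  · have hcoe : (fun z => (((hemb.toHomeomorph.trans (Homeomorph.setCongr hfr)) z : B) :
      Fan (WK K))) = f := rfl
    rw [hcoe]
    have h1 : f '' Z = inc K b '' (B' ∩ closure ({e' : Fan (K b) | IsEndpoint e'} \ B')) := by
      rw [← hφZ, image_image]
    rw [h1]
    have htB : top (hK b) ∈ B' ∩ closure ({e' : Fan (K b) | IsEndpoint e'} \ B') := by
      rw [← hφZ]
      exact ⟨0, h0, hφ0⟩
    apply subset_antisymm
    · rintro _ ⟨q, ⟨hq1, hq2⟩, rfl⟩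
      refine ⟨by rw [hBB']; exact ⟨q, hq1, rfl⟩, ?_⟩
      have h2 : inc K b q ∈ closure (inc K b '' ({e' : Fan (K b) | IsEndpoint e'} \ B')) := by
        rw [closure_inc hK]; exact ⟨q, hq2, rfl⟩
      apply closure_mono _ h2
      rintro _ ⟨r, ⟨hr1, hr2⟩, rfl⟩
      refine ⟨(endpoint_inc hK r).2 hr1, ?_⟩
      rw [hBB']
      rintro ⟨r', hr', hrr⟩
      rw [inc_inj b hrr] at hr'
      exact hr2 hr'
    · rintro p ⟨hpB, hpc⟩
      rw [hBB'] at hpB
      obtain ⟨q, hq, rfl⟩ := hpB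
      by_cases hqt : q = top (hK b)
      · subst hqt
        exact ⟨_, htB, rfl⟩
      · refine ⟨q, ⟨hq, ?_⟩, rfl⟩
        rw [mem_closure_iff_nhds]
        intro U hU
        have h2 : (inc K b) '' U ∈ 𝓝 (inc K b q) := by
          rw [(inc_closed hK b).isInducing.nhds_eq_comap, mem_comap] at hU
          obtain ⟨V, hV, hVU⟩ := hU
          apply mem_of_superset (inter_mem hV (range_nhds hK hqt))
          rintro _ ⟨hx, r, rfl⟩
          exact ⟨r, hVU hx, rfl⟩
        obtain ⟨_, ⟨r, hrU, rfl⟩, hrE, hrB⟩ := mem_closure_iff_nhds.1 hpc _ h2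
        refine ⟨r, hrU, (endpoint_inc hK r).1 hrE, ?_⟩
        intro hrB'
        apply hrB
        rw [hBB']
        exact ⟨r, hrB', rfl⟩

/-! ### The counterexample -/

/-- the two weights -/
noncomputable def PS : Bool → St → ℝ
  | false => psi1
  | true => psi2

/-- the two admissible sets -/
def KF (b : Bool) : Set (Cs × ℝ) := KK (PS b)

lemma goodKF (b : Bool) : Good (KF b) := by
  cases b
  · exact good wt1
  · exact good wt2

lemma epgKF (b : Bool) : IsEPG (top (goodKF b)) Z3 := by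
  cases b
  · exact isEPG wt1
  · exact isEPG wt2

/-- the set of endpoints of the wedge -/
def EW : Set (Fan (WK KF)) := {e | IsEndpoint e}

lemma EW_inc {b : Bool} (x : Fan (KF b)) : inc KF b x ∈ EW ↔ x ∈ EE (PS b) :=
  endpoint_inc goodKF x

lemma DEW_inc {b : Bool} {x : Fan (KF b)} (hx : x ≠ top (goodKF b)) :
    inc KF b x ∈ Dv EW ↔ x ∈ Dv (EE (PS b)) :=
  Dv_inc goodKF (fun y _ => EW_inc y) hx

lemma DDEW_inc {b : Bool} {x : Fan (KF b)} (hx : x ≠ top (goodKF b)) :
    inc KF b x ∈ Dv (Dv EW) ↔ x ∈ Dv (Dv (EE (PS b))) :=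
  Dv_inc goodKF (fun y hy => DEW_inc hy) hx

lemma s0 : Sup z0 0 := fun n _ => rfl

/-- a homeomorphism fixes the top -/
lemma map_top (h : Fan (WK KF) ≃ₜ Fan (WK KF)) : h (top (good_WK goodKF)) = top (good_WK goodKF) := by
  have hf := isFan (good_WK goodKF)
  rw [← hf.ramification]
  obtain ⟨A₁, A₂, A₃, x₁, x₂, x₃, h₁, h₂, h₃, h12, h13, h23⟩ :=
    (hf.ramification (top (good_WK goodKF))).2 rfl
  refine ⟨h '' A₁, h '' A₂, h '' A₃, h x₁, h x₂, h x₃, isArc_image h h₁, isArc_image h h₂,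
    isArc_image h h₃, ?_, ?_, ?_⟩
  · rw [← image_inter h.injective, h12, image_singleton]
  · rw [← image_inter h.injective, h13, image_singleton]
  · rw [← image_inter h.injective, h23, image_singleton]

/-- the wedge is not endpoint-homogeneous -/
theorem not_hom : ¬ EndpointHomogeneous (Fan (WK KF)) := by
  intro hhom
  -- the two endpoints
  have m1 : (z0, psi1 (st z0 0)) ∈ KF false := tip_mem wt1 s0
  have m2 : (z0, psi2 (st z0 0)) ∈ KF true := tip_mem wt2 s0
  have e1 : IsEndpoint (inc KF false (pt z0 (psi1 (st z0 0)) m1)) := by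
    rw [endpoint_inc goodKF]
    exact (endpoint_iff' wt1 _).2 ⟨z0, 0, s0, rfl⟩
  have e2 : IsEndpoint (inc KF true (pt z0 (psi2 (st z0 0)) m2)) := by
    rw [endpoint_inc goodKF]
    exact (endpoint_iff' wt2 _).2 ⟨z0, 0, s0, rfl⟩
  obtain ⟨h, hh⟩ := hhom _ _ e2 e1
  have ht := map_top h
  -- the blades
  have a2 := isArc_inc goodKF (blade_isArc (goodKF true) (wt2.pos _) m2)
  have a1 := isArc_inc goodKF (blade_isArc (goodKF false) (wt1.pos _) m1)
  have a3 := isArc_image h a2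
  rw [hh, inc_top goodKF, ht] at a3
  rw [inc_top goodKF] at a1
  have hun : ∀ A : Set (Fan (WK KF)), IsArc A (top (good_WK goodKF))
      (inc KF false (pt z0 (psi1 (st z0 0)) m1)) →
      A = Subtype.val ⁻¹' ((fun u => pr (cns false z0, u)) '' Icc 0 (psi1 (st z0 0))) := by
    intro A hA
    rw [inc_pt] at hA
    exact arc_unique (good_WK goodKF) (wt1.pos _) _ hA
  have heq := (hun _ a3).trans (hun _ a1).symm
  -- the lower mark of the second blade
  obtain ⟨v1, v2, v3⟩ := st_valid z0 0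
  have hma := wt2.ma_pos _ _ _ v1 v2
  have hmk : (z0, mA (st z0 0)) ∈ KF true := ma_mem wt2 s0
  set x : Fan (KF true) := pt z0 (mA (st z0 0)) hmk with hx
  have hxt : x ≠ top (goodKF true) := pt_ne_top (goodKF true) hma.ne'
  have hxD : inc KF true x ∈ Dv (Dv EW) := (DDEW_inc hxt).2 (DD2 s0)
  have hE : ∀ y, h y ∈ EW ↔ y ∈ EW := fun y => endpoint_homeo h y
  have hD := Dv_homeo h hE
  have hDD := Dv_homeo h hD
  have hxD' : h (inc KF true x) ∈ Dv (Dv EW) := (hDD _).2 hxD
  have hxB : h (inc KF true x) ∈ inc KF false ''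
      (Subtype.val ⁻¹' ((fun u => pr (z0, u)) '' Icc 0 (psi1 (st z0 0)))) := by
    rw [← heq]
    refine ⟨_, ⟨x, ⟨mA (st z0 0), ⟨hma.le, ?_⟩, rfl⟩, rfl⟩, rfl⟩
    exact ((wt2.ma_lt _ _ _ v1 v2).trans (wt2.mb_lt _ _ _ v1 v2)).le
  obtain ⟨y, hy, hyx⟩ := hxB
  have hyt : y ≠ top (goodKF false) := by
    rintro rfl
    rw [inc_top goodKF, ← ht] at hyx
    have := h.injective hyx
    rw [← inc_top goodKF true] at this
    exact hxt (inc_inj true this).symm
  rw [← hyx, DDEW_inc hyt] at hxD'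
  exact hyt (DD1 hxD')

end Pool.Agent.R813.FanWedge
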