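import Pool.Agent.R684.PN.Stm

/-!
# PN-FIN: at finite level the dimension is at least one
-/

set_option autoImplicit false

namespace Pool.Agent.R684.PN

open Pool.Agent.W649.ZL

namespace FIN813

theorem DD_tr {G S : Type} [Group G] (τ : S → G) (L : List S) (k : G) (f : EE G S) (x : G) :
    DD τ L (tr k f) x = DD τ L f (x * k) := by
  induction L generalizing x with
  | nil => rfl
  | cons s L ih =>
    simp only [DD]
    rw [ih, tr_apply, mul_assoc]

theorem coc_one {Γ G : Type} [Group Γ] [Group G] {q : Γ →* G} {c : Γ → G → ℂ} (h : Coc q c)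
    (x : G) : c 1 x = 0 := by
  have h1 := h 1 1 x
  rw [mul_one, map_one, inv_one, one_mul] at h1
  exact left_eq_add.mp h1

theorem DD_coc {Γ G S : Type} [Group Γ] [Group G] {q : Γ →* G} {c : Γ → G → ℂ} (h : Coc q c)
    (σ : S → Γ) (F : G × S → ℂ) (hF : ∀ x s, F (x, s) = c (σ s) x) (L : List S) (x : G) :
    DD (fun s => q (σ s)) L F x = c (L.map σ).prod x := by
  induction L generalizing x with
  | nil =>
    simp only [DD, List.map_nil, List.prod_nil]
    exact (coc_one h x).symm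
  | cons s L ih =>
    simp only [DD, List.map_cons, List.prod_cons]
    rw [ih, hF, h]

end FIN813

open FIN813

theorem t_FIN (h : S_CLO) (h' : S_OP) : S_FIN := by
  intro Γ G S _ _ _ _ σ q s₁ s₂ hne L₀ hyp
  classical
  set τ : S → G := fun s => q (σ s) with hτ
  obtain ⟨hZc, hZi⟩ := h Γ G S σ q ∅
  -- the operator of `L₀`
  obtain ⟨T₀, hT₀⟩ := h' G G S Unit τ (MonoidHom.id G) Function.injective_id (fun _ => L₀)
  have hT₀e : Eqv T₀ := by
    intro k f
    ext ⟨x, j⟩
    rw [tr_apply, hT₀, hT₀]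
    exact DD_tr τ L₀ k f x
  have h1 := rank_nullity T₀ hT₀e hZi hZc
  have h2 : vd (UU σ q ∅ ⊓ LinearMap.ker (T₀ : EE G S →ₗ[ℂ] EE G Unit)) ≤ vd (UU σ q {L₀}) := by
    apply vd_mono
    rintro f ⟨hf1, hf2⟩
    refine ⟨hf1.1, ?_⟩
    rintro L rfl x
    have h3 : T₀ f = 0 := hf2
    have h4 := hT₀ f x ()
    rw [h3] at h4
    exact h4.symm
  have h3 : vd ((UU σ q ∅).map (T₀ : EE G S →ₗ[ℂ] EE G Unit)) ≤ 1 := by
    have h4 := vd_mono (le_top : (UU σ q ∅).map (T₀ : EE G S →ₗ[ℂ] EE G Unit) ≤ ⊤)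
    rw [vd_top] at h4
    simpa using h4
  -- the operator of the two coordinates
  obtain ⟨E, hE⟩ := h' G G S (Fin 2) τ (MonoidHom.id G) Function.injective_id ![[s₁], [s₂]]
  have hEe : Eqv E := by
    intro k f
    ext ⟨x, j⟩
    rw [tr_apply, hE, hE]
    exact DD_tr τ _ k f x
  have h5 := rank_nullity E hEe hZi hZc
  have h6 : (UU σ q ∅).map (E : EE G S →ₗ[ℂ] EE G (Fin 2)) = ⊤ := by
    rw [eq_top_iff]
    intro g _
    obtain ⟨c, hc, hc1, hc2⟩ := hyp (fun x => g (x, 0)) (fun x => g (x, 1))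
    have hmem : Memℓp (fun y : G × S => c (σ y.2) y.1) 2 := by
      rw [memlp_two_iff]
      exact Summable.of_finite
    let f : EE G S := ⟨fun y : G × S => c (σ y.2) y.1, hmem⟩
    have hfv : ∀ x s, (f : G × S → ℂ) (x, s) = c (σ s) x := fun x s => rfl
    refine ⟨f, ⟨?_, ?_⟩, ?_⟩
    · intro L L' hLL x
      rw [DD_coc hc σ f hfv L x, DD_coc hc σ f hfv L' x, hLL]
    · intro L hL
      exact absurd hL (Set.notMem_empty L)
    · apply lp.ext
      funext y
      obtain ⟨x, j⟩ := y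
      have h7 := hE f x j
      refine h7.trans ?_
      fin_cases j
      · show DD τ [s₁] f x = g (x, 0)
        simp only [DD]
        rw [add_zero, hfv, hc1]
      · show DD τ [s₂] f x = g (x, 1)
        simp only [DD]
        rw [add_zero, hfv, hc2]
  rw [h6, vd_top] at h5
  have h8 : 0 ≤ vd (UU σ q ∅ ⊓ LinearMap.ker (E : EE G S →ₗ[ℂ] EE G (Fin 2))) := vd_nonneg _
  rw [Fintype.card_fin] at h5
  push_cast at h5
  linarith

end Pool.Agent.R684.PN
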